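import Pool.Agent.Run7.h58.AR.Iface
import Pool.Agent.R951.FM.Hz

set_option autoImplicit false

open MeasureTheory Filter Topology Set Complex Interval

namespace Pool.Agent.Run7.h986.AR

open Pool.Agent.Run7.h58.AR

/-- the distance from `1` -/
theorem dist_lower {s θ : ℝ} (hs : 0 ≤ s) (hs1 : s ≤ 1) (hθ : |θ| ≤ Real.pi) :
    |θ| / Real.pi ≤ ‖1 - (s : ℂ) * exp (θ * I)‖ := by
  have h1 : 1 - s ≤ ‖1 - (s : ℂ) * exp (θ * I)‖ := by
    have := norm_sub_norm_le (1 : ℂ) ((s : ℂ) * exp (θ * I))
    rw [norm_one, norm_mul, norm_exp_ofReal_mul_I, mul_one, Complex.norm_real,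
      Real.norm_of_nonneg hs] at this
    exact this
  have h2 : ‖1 - exp (θ * I)‖ ≤ ‖1 - (s : ℂ) * exp (θ * I)‖ + (1 - s) := by
    have h3 : 1 - exp (θ * I) = (1 - (s : ℂ) * exp (θ * I)) + ((s : ℂ) - 1) * exp (θ * I) := by
      ring
    rw [h3]
    refine (norm_add_le _ _).trans (add_le_add le_rfl ?_)
    rw [norm_mul, norm_exp_ofReal_mul_I, mul_one]
    have h4 : ((s : ℂ) - 1) = ((s - 1 : ℝ) : ℂ) := by push_cast; ring
    rw [h4, Complex.norm_real, Real.norm_of_nonpos (by linarith)]
    linarith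
  have h3 : 2 * (|θ| / Real.pi) ≤ ‖1 - exp (θ * I)‖ := by
    rw [norm_sub_rev, mul_comm (θ : ℂ) I, Complex.norm_exp_I_mul_ofReal_sub_one, norm_mul,
      Real.norm_eq_abs, Real.norm_eq_abs, abs_of_pos (by norm_num : (0 : ℝ) < 2)]
    have h4 : |θ / 2| ≤ Real.pi / 2 := by
      rw [abs_div, abs_of_pos (by norm_num : (0 : ℝ) < 2)]
      linarith
    have h5 := Real.mul_abs_le_abs_sin h4
    rw [abs_div, abs_of_pos (by norm_num : (0 : ℝ) < 2)] at h5
    have h6 : 2 / Real.pi * (|θ| / 2) = |θ| / Real.pi := by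
      field_simp
    linarith
  linarith

theorem abs_rpow_int : IntervalIntegrable (fun θ : ℝ => |θ| ^ (-(1 / 2) : ℝ)) volume
    (-Real.pi) Real.pi := by
  have h1 : IntervalIntegrable (fun θ : ℝ => |θ| ^ (-(1 / 2) : ℝ)) volume 0 Real.pi := by
    refine (intervalIntegral.intervalIntegrable_rpow' (a := 0) (b := Real.pi)
      (by norm_num : (-1 : ℝ) < -(1 / 2))).congr ?_
    intro θ hθ
    rw [uIoc_of_le Real.pi_pos.le] at hθ
    simp only
    rw [abs_of_pos hθ.1]
  have h2 : IntervalIntegrable (fun θ : ℝ => |θ| ^ (-(1 / 2) : ℝ)) volume (-Real.pi) 0 := by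
    have h3 := (IntervalIntegrable.iff_comp_neg (f := fun θ : ℝ => |θ| ^ (-(1 / 2) : ℝ))
      (a := 0) (b := Real.pi)).mp h1
    simp only [abs_neg, neg_zero] at h3
    exact h3.symm
  exact h2.trans h1

theorem t_SCHW : S_SCHW := by
  intro F u C hF hFu hu hC
  have hpi := Real.pi_pos
  have h0D : (0 : ℂ) ∈ D := by simp [D]
  have hC0 : 0 ≤ C := by
    have h1 := hC 0 h0D
    rw [sub_zero, norm_one, Real.sqrt_one, div_one] at h1
    exact (abs_nonneg _).trans h1
  set s : ℕ → ℝ := fun n => n / (n + 1) with hs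
  have hs0 : ∀ n, 0 ≤ s n := fun n => by simp only [hs]; positivity
  have hs1 : ∀ n, s n < 1 := fun n => by
    simp only [hs]
    rw [div_lt_one (by positivity)]
    linarith
  have hst : Tendsto s atTop (𝓝 1) := tendsto_natCast_div_add_atTop (1 : ℝ)
  have hmem : ∀ n (θ : ℝ), (s n : ℂ) * exp (θ * I) ∈ D := by
    intro n θ
    rw [D, Metric.mem_ball, dist_zero_right, norm_mul, norm_exp_ofReal_mul_I, mul_one,
      Complex.norm_real, Real.norm_of_nonneg (hs0 n)]
    exact hs1 n
  have hcontF : ContinuousOn F D := hF.continuousOn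
  have hucont : ∀ n, Continuous fun θ : ℝ => u ((s n : ℂ) * exp (θ * I)) := by
    intro n
    have h1 : (fun θ : ℝ => u ((s n : ℂ) * exp (θ * I))) =
        fun θ : ℝ => (F ((s n : ℂ) * exp (θ * I))).re := by
      funext θ
      exact (hFu _ (hmem n θ)).symm
    rw [h1]
    exact Complex.continuous_re.comp (hcontF.comp_continuous (by fun_prop) (hmem n))
  -- pointwise convergence
  have hpt : ∀ θ : ℝ, |θ| ≤ Real.pi → θ ≠ 0 →
      Tendsto (fun n => u ((s n : ℂ) * exp (θ * I))) atTop (𝓝 (u (exp (θ * I)))) := by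
    intro θ hθ hθ0
    have hne : exp (θ * I) ≠ 1 := by
      intro h
      have h1 := dist_lower (s := 1) (by norm_num) le_rfl hθ
      rw [h, ofReal_one, mul_one, sub_self, norm_zero] at h1
      have h2 : 0 < |θ| / Real.pi := by positivity
      linarith
    have hD1 : exp (θ * I) ∈ D1 := by
      refine ⟨?_, by simpa using hne⟩
      rw [Metric.mem_closedBall, dist_zero_right, norm_exp_ofReal_mul_I]
    have h1 := hu _ hD1
    have h2 : Tendsto (fun n => (s n : ℂ) * exp (θ * I)) atTop (𝓝[D1] (exp (θ * I))) := by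
      rw [tendsto_nhdsWithin_iff]
      constructor
      · have h3 : Tendsto (fun n => ((s n : ℝ) : ℂ)) atTop (𝓝 ((1 : ℝ) : ℂ)) :=
          (Complex.continuous_ofReal.tendsto 1).comp hst
        have h4 := h3.mul_const (exp (θ * I))
        rwa [ofReal_one, one_mul] at h4
      · refine Eventually.of_forall fun n => ⟨?_, ?_⟩
        · exact Metric.ball_subset_closedBall (hmem n θ)
        · intro h3
          rw [mem_singleton_iff] at h3
          have h4 := hmem n θ
          rw [h3, D, Metric.mem_ball, dist_zero_right, norm_one] at h4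
          exact lt_irrefl _ h4
    exact h1.tendsto.comp h2
  -- the bound
  set g : ℝ → ℝ := fun θ => C * Real.sqrt Real.pi * |θ| ^ (-(1 / 2) : ℝ) with hg
  have hgint : IntervalIntegrable g volume (-Real.pi) Real.pi := abs_rpow_int.const_mul _
  have hbd : ∀ n (θ : ℝ), |θ| ≤ Real.pi → θ ≠ 0 → |u ((s n : ℂ) * exp (θ * I))| ≤ g θ := by
    intro n θ hθ hθ0
    have h1 := hC _ (hmem n θ)
    have h2 := dist_lower (hs0 n) (hs1 n).le hθ
    have h3 : 0 < |θ| := abs_pos.mpr hθ0
    have h4 : Real.sqrt (|θ| / Real.pi) ≤ Real.sqrt ‖1 - (s n : ℂ) * exp (θ * I)‖ :=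
      Real.sqrt_le_sqrt h2
    have h5 : 0 < Real.sqrt (|θ| / Real.pi) := Real.sqrt_pos.mpr (by positivity)
    refine h1.trans ((div_le_div_of_nonneg_left hC0 h5 h4).trans (le_of_eq ?_))
    simp only [hg]
    rw [Real.rpow_neg h3.le, ← Real.sqrt_eq_rpow, Real.sqrt_div h3.le, div_div_eq_mul_div,
      ← div_eq_mul_inv]
  have hae0 : ∀ᵐ θ : ℝ ∂volume, θ ≠ 0 := by
    rw [ae_iff]
    simp
  have habs : ∀ θ ∈ Ι (-Real.pi) Real.pi, |θ| ≤ Real.pi := by
    intro θ hθ
    rw [uIoc_of_le (by linarith)] at hθ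
    exact abs_le.mpr ⟨hθ.1.le, hθ.2⟩
  -- integrability of the boundary values
  have hlimae : ∀ᵐ θ : ℝ ∂(volume.restrict (Ι (-Real.pi) Real.pi)),
      Tendsto (fun n => u ((s n : ℂ) * exp (θ * I))) atTop (𝓝 (u (exp (θ * I)))) := by
    rw [ae_restrict_iff' measurableSet_uIoc]
    filter_upwards [hae0] with θ h0 hθ
    exact hpt θ (habs θ hθ) h0
  have hum : AEStronglyMeasurable (fun θ : ℝ => u (exp (θ * I)))
      (volume.restrict (Ι (-Real.pi) Real.pi)) :=
    aestronglyMeasurable_of_tendsto_ae atTop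
      (fun n => (hucont n).aestronglyMeasurable) hlimae
  have hui : IntervalIntegrable (fun θ : ℝ => u (exp (θ * I))) volume (-Real.pi) Real.pi := by
    refine hgint.mono_fun hum ?_
    rw [EventuallyLE, ae_restrict_iff' measurableSet_uIoc]
    filter_upwards [hae0] with θ h0 hθ
    have h1 := (hpt θ (habs θ hθ) h0).abs
    have h2 : |u (exp (θ * I))| ≤ g θ :=
      le_of_tendsto h1 (Eventually.of_forall fun n => hbd n θ (habs θ hθ) h0)
    rw [Real.norm_eq_abs, Real.norm_eq_abs]
    exact h2.trans (le_abs_self _)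
  refine ⟨hui, fun z hz => ?_⟩
  have hz1 : ‖z‖ < 1 := by simpa [D] using hz
  have hkc : Continuous (ker z) := Pool.Agent.R951.FM.continuous_ker hz1
  have hkb : ∀ θ : ℝ, ‖ker z θ‖ ≤ 2 / (1 - ‖z‖) := by
    intro θ
    unfold Pool.Agent.Run7.h58.AR.ker
    rw [norm_div]
    have h1 : ‖exp (θ * I) + z‖ ≤ 2 := by
      refine (norm_add_le _ _).trans ?_
      rw [norm_exp_ofReal_mul_I]
      linarith
    have h2 : 1 - ‖z‖ ≤ ‖exp (θ * I) - z‖ := by
      have := norm_sub_norm_le (exp (θ * I)) z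
      rwa [norm_exp_ofReal_mul_I] at this
    exact div_le_div₀ (by norm_num) h1 (by linarith) h2
  -- the formula on smaller circles
  have hform : ∀ n, ∫ θ in (-Real.pi)..Real.pi, ker z θ * (u ((s n : ℂ) * exp (θ * I)) : ℂ) =
      2 * Real.pi * (F ((s n : ℂ) * z) - I * (F 0).im) := by
    intro n
    have hcl : closure (Metric.ball (0 : ℂ) 1) = Metric.closedBall 0 1 :=
      closure_ball _ (by norm_num)
    have hmaps : MapsTo (fun w : ℂ => (s n : ℂ) * w) (Metric.closedBall 0 1) D := by
      intro w hw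
      rw [Metric.mem_closedBall, dist_zero_right] at hw
      rw [D, Metric.mem_ball, dist_zero_right, norm_mul, Complex.norm_real,
        Real.norm_of_nonneg (hs0 n)]
      have := hs1 n
      have h2 := hs0 n
      nlinarith [norm_nonneg w]
    have hd : DiffContOnCl ℂ (fun w : ℂ => 1 + F ((s n : ℂ) * w) - F 0) (Metric.ball 0 1) := by
      apply DifferentiableOn.diffContOnCl
      rw [hcl]
      have h1 : DifferentiableOn ℂ (fun w : ℂ => F ((s n : ℂ) * w)) (Metric.closedBall 0 1) :=
        hF.comp (by fun_prop) hmaps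
      exact ((differentiableOn_const _).add h1).sub (differentiableOn_const _)
    have h1 := Pool.Agent.R951.FM.schwarz hd (by simp) (w := z) hz
    have h2 := Pool.Agent.R951.FM.schwarz (f := fun _ => (1 : ℂ)) diffContOnCl_const rfl (w := z) hz
    have hre : ∀ θ : ℝ, ((1 + F ((s n : ℂ) * exp (θ * I)) - F 0).re : ℂ) =
        (u ((s n : ℂ) * exp (θ * I)) : ℂ) + (1 - (F 0).re : ℂ) := by
      intro θ
      rw [sub_re, add_re, one_re, hFu _ (hmem n θ)]
      push_cast
      ring
    have hc1 : Continuous fun θ : ℝ => ker z θ * (u ((s n : ℂ) * exp (θ * I)) : ℂ) :=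
      hkc.mul (Complex.continuous_ofReal.comp (hucont n))
    have h3 : ∫ θ in (0 : ℝ)..2 * Real.pi, ker z θ * (u ((s n : ℂ) * exp (θ * I)) : ℂ) =
        2 * Real.pi * (F ((s n : ℂ) * z) - I * (F 0).im) := by
      have h4 : ∫ θ in (0 : ℝ)..2 * Real.pi, (ker z θ * (u ((s n : ℂ) * exp (θ * I)) : ℂ) +
          ker z θ * (1 - (F 0).re : ℂ)) = 2 * Real.pi * (1 + F ((s n : ℂ) * z) - F 0) := by
        rw [← h1]
        apply intervalIntegral.integral_congr
        intro θ _
        simp only
        rw [hre θ, mul_add]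
        rfl
      have h5 : ∫ θ in (0 : ℝ)..2 * Real.pi, ker z θ * (1 - (F 0).re : ℂ) =
          2 * Real.pi * (1 - (F 0).re : ℂ) := by
        rw [intervalIntegral.integral_mul_const]
        have h6 : ∫ θ in (0 : ℝ)..2 * Real.pi, ker z θ = 2 * Real.pi := by
          have h7 := h2
          simp only [one_re, ofReal_one, mul_one] at h7
          exact h7
        rw [h6]
      have hc2 : Continuous fun θ : ℝ => Pool.Agent.Run7.h58.AR.ker z θ * (1 - (F 0).re : ℂ) :=
        hkc.mul continuous_const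
      rw [intervalIntegral.integral_add (hc1.intervalIntegrable _ _)
        (hc2.intervalIntegrable _ _), h5] at h4
      have h6 : F 0 = (F 0).re + (F 0).im * I := (Complex.re_add_im (F 0)).symm
      have h7 := eq_sub_of_add_eq h4
      rw [h7]
      conv_lhs => rw [h6]
      simp only [add_re, ofReal_re, mul_re, ofReal_im, I_re, I_im, mul_zero, zero_mul, sub_self,
        add_zero]
      ring
    have hper : Function.Periodic (fun θ : ℝ => ker z θ * (u ((s n : ℂ) * exp (θ * I)) : ℂ))
        (2 * Real.pi) := by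
      intro θ
      have h4 : exp (((θ + 2 * Real.pi : ℝ) : ℂ) * I) = exp (θ * I) := by
        push_cast
        rw [add_mul, Complex.exp_add, Complex.exp_two_pi_mul_I, mul_one]
      simp only [Pool.Agent.Run7.h58.AR.ker]
      rw [h4]
    have h8 := hper.intervalIntegral_add_eq (-Real.pi) 0
    rw [zero_add, show -Real.pi + 2 * Real.pi = Real.pi by ring] at h8
    rw [h8, h3]
  have hlim1 : Tendsto (fun n => ∫ θ in (-Real.pi)..Real.pi,
      ker z θ * (u ((s n : ℂ) * exp (θ * I)) : ℂ)) atTop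
      (𝓝 (∫ θ in (-Real.pi)..Real.pi, ker z θ * (u (exp (θ * I)) : ℂ))) := by
    apply intervalIntegral.tendsto_integral_filter_of_dominated_convergence
      (fun θ => 2 / (1 - ‖z‖) * g θ)
    · exact Eventually.of_forall fun n =>
        (hkc.mul (Complex.continuous_ofReal.comp (hucont n))).aestronglyMeasurable
    · refine Eventually.of_forall fun n => ?_
      filter_upwards [hae0] with θ h0 hθ
      rw [norm_mul, Complex.norm_real, Real.norm_eq_abs]
      exact mul_le_mul (hkb θ) (hbd n θ (habs θ hθ) h0) (abs_nonneg _) (by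
        have : 0 < 1 - ‖z‖ := by linarith
        positivity)
    · exact hgint.const_mul _
    · filter_upwards [hae0] with θ h0 hθ
      have h1 := (Complex.continuous_ofReal.tendsto _).comp (hpt θ (habs θ hθ) h0)
      exact h1.const_mul _
  have hlim2 : Tendsto (fun n => 2 * (Real.pi : ℂ) * (F ((s n : ℂ) * z) - I * (F 0).im)) atTop
      (𝓝 (2 * Real.pi * (F z - I * (F 0).im))) := by
    have h3 : Tendsto (fun n => ((s n : ℝ) : ℂ)) atTop (𝓝 ((1 : ℝ) : ℂ)) :=
      (Complex.continuous_ofReal.tendsto 1).comp hst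
    have h4 := h3.mul_const z
    rw [ofReal_one, one_mul] at h4
    have h5 : ContinuousAt F z := hcontF.continuousAt (Metric.isOpen_ball.mem_nhds hz)
    have h6 := h5.tendsto.comp h4
    exact (h6.sub_const _).const_mul _
  have heq := tendsto_nhds_unique (hlim1.congr hform) hlim2
  unfold mean
  rw [heq, ← mul_assoc, inv_mul_cancel₀ (by
    have : (Real.pi : ℂ) ≠ 0 := by exact_mod_cast hpi.ne'
    simp [this]), one_mul]
  ring

end Pool.Agent.Run7.h986.AR
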